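import Pool.Agent.TH672.Fm

/-!
# The completeness theorem for the calculus `Pv` (Henkin construction)
-/

set_option autoImplicit false

namespace Pool.Agent.TH690.J100

open Pool.Agent.TH672 Pool.Agent.TH672.Fm

variable {κ : Type}

/-! ### Countability -/

/-- injective coding of formulas by numbers -/
def enc (f : κ → ℕ) : Fm κ → ℕ
  | .bot => Nat.pair 0 0
  | .eq x y => Nat.pair 1 (Nat.pair x y)
  | .zero x => Nat.pair 2 x
  | .succ x y => Nat.pair 3 (Nat.pair x y)
  | .add x y z => Nat.pair 4 (Nat.pair x (Nat.pair y z))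
  | .mul x y z => Nat.pair 5 (Nat.pair x (Nat.pair y z))
  | .op i a b c d => Nat.pair 6 (Nat.pair (f i) (Nat.pair a (Nat.pair b (Nat.pair c d))))
  | .imp φ ψ => Nat.pair 7 (Nat.pair (enc f φ) (enc f ψ))
  | .all x φ => Nat.pair 8 (Nat.pair x (enc f φ))

theorem enc_inj (f : κ → ℕ) (hf : Function.Injective f) : Function.Injective (enc f) := by
  intro φ
  induction φ with
  | bot => intro ψ h; cases ψ <;> simp_all [enc, Nat.pair_eq_pair]
  | eq x y => intro ψ h; cases ψ <;> simp_all [enc, Nat.pair_eq_pair]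
  | zero x => intro ψ h; cases ψ <;> simp_all [enc, Nat.pair_eq_pair]
  | succ x y => intro ψ h; cases ψ <;> simp_all [enc, Nat.pair_eq_pair]
  | add x y z => intro ψ h; cases ψ <;> simp_all [enc, Nat.pair_eq_pair]
  | mul x y z => intro ψ h; cases ψ <;> simp_all [enc, Nat.pair_eq_pair]
  | op i a b c d =>
    intro ψ h
    cases ψ <;> simp_all [enc, Nat.pair_eq_pair]
    exact hf h.1
  | imp φ ψ ih1 ih2 =>
    intro χ h
    cases χ <;> simp [enc, Nat.pair_eq_pair] at h ⊢
    exact ⟨ih1 h.1, ih2 h.2⟩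
  | all x φ ih =>
    intro χ h
    cases χ <;> simp [enc, Nat.pair_eq_pair] at h ⊢
    exact ⟨h.1, ih h.2⟩

instance [Countable κ] : Countable (Fm κ) := by
  obtain ⟨f, hf⟩ := exists_injective_nat κ
  exact (enc_inj f hf).countable

instance : Nonempty (Fm κ) := ⟨.bot⟩

/-! ### Variables and substitutions -/

/-- a bound for the variables of a formula -/
def vb : Fm κ → ℕ
  | .bot => 0
  | .eq x y => x + y + 1
  | .zero x => x + 1
  | .succ x y => x + y + 1
  | .add x y z => x + y + z + 1
  | .mul x y z => x + y + z + 1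
  | .op _ a b c d => a + b + c + d + 1
  | .imp φ ψ => vb φ + vb ψ
  | .all x φ => x + 1 + vb φ

theorem lt_vb_of_free {x : ℕ} : ∀ {φ : Fm κ}, φ.Free x → x < vb φ
  | .bot, h => h.elim
  | .eq u v, h => by simp only [Free, vb] at *; omega
  | .zero u, h => by simp only [Free, vb] at *; omega
  | .succ u v, h => by simp only [Free, vb] at *; omega
  | .add u v w, h => by simp only [Free, vb] at *; omega
  | .mul u v w, h => by simp only [Free, vb] at *; omega
  | .op i a b c d, h => by simp only [Free, vb] at *; omega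
  | .imp φ ψ, h => by
      rcases h with h | h
      · have := lt_vb_of_free h
        simp only [vb]; omega
      · have := lt_vb_of_free h
        simp only [vb]; omega
  | .all u φ, h => by
      have := lt_vb_of_free h.2
      simp only [vb]; omega

theorem lt_vb_of_bd {x : ℕ} : ∀ {φ : Fm κ}, φ.Bd x → x < vb φ
  | .bot, h => h.elim
  | .eq u v, h => h.elim
  | .zero u, h => h.elim
  | .succ u v, h => h.elim
  | .add u v w, h => h.elim
  | .mul u v w, h => h.elim
  | .op i a b c d, h => h.elim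
  | .imp φ ψ, h => by
      rcases h with h | h
      · have := lt_vb_of_bd h
        simp only [vb]; omega
      · have := lt_vb_of_bd h
        simp only [vb]; omega
  | .all u φ, h => by
      rcases h with h | h
      · simp only [vb]; omega
      · have := lt_vb_of_bd h
        simp only [vb]; omega

theorem ren_ne {x y u : ℕ} (h : u ≠ x) : Form.ren x y u = u := by simp [Form.ren, h]

theorem subst_of_not_free {x y : ℕ} : ∀ {φ : Fm κ}, ¬ φ.Free x → φ.subst x y = φ
  | .bot, _ => rfl
  | .eq u v, h => by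
      simp only [Free, not_or] at h
      simp only [subst, ren_ne (Ne.symm h.1), ren_ne (Ne.symm h.2)]
  | .zero u, h => by
      simp only [Free] at h
      simp only [subst, ren_ne (Ne.symm h)]
  | .succ u v, h => by
      simp only [Free, not_or] at h
      simp only [subst, ren_ne (Ne.symm h.1), ren_ne (Ne.symm h.2)]
  | .add u v w, h => by
      simp only [Free, not_or] at h
      simp only [subst, ren_ne (Ne.symm h.1), ren_ne (Ne.symm h.2.1), ren_ne (Ne.symm h.2.2)]
  | .mul u v w, h => by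
      simp only [Free, not_or] at h
      simp only [subst, ren_ne (Ne.symm h.1), ren_ne (Ne.symm h.2.1), ren_ne (Ne.symm h.2.2)]
  | .op i a b c d, h => by
      simp only [Free, not_or] at h
      simp only [subst, ren_ne (Ne.symm h.1), ren_ne (Ne.symm h.2.1), ren_ne (Ne.symm h.2.2.1),
        ren_ne (Ne.symm h.2.2.2)]
  | .imp φ ψ, h => by
      simp only [Free, not_or] at h
      simp only [subst, subst_of_not_free h.1, subst_of_not_free h.2]
  | .all u φ, h => by
      simp only [subst]
      split_ifs with hu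
      · rfl
      · have : ¬ φ.Free x := fun h' => h ⟨fun e => hu e.symm, h'⟩
        rw [subst_of_not_free this]

theorem ren_ren {x c u : ℕ} (h : u ≠ c) : Form.ren c x (Form.ren x c u) = u := by
  unfold Form.ren
  split_ifs <;> simp_all

theorem subst_subst {x c : ℕ} : ∀ {φ : Fm κ}, ¬ φ.Free c → ¬ φ.Bd c →
    (φ.subst x c).subst c x = φ
  | .bot, _, _ => rfl
  | .eq u v, h, _ => by
      simp only [Free, not_or] at h
      simp only [subst, ren_ren (Ne.symm h.1), ren_ren (Ne.symm h.2)]
  | .zero u, h, _ => by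
      simp only [Free] at h
      simp only [subst, ren_ren (Ne.symm h)]
  | .succ u v, h, _ => by
      simp only [Free, not_or] at h
      simp only [subst, ren_ren (Ne.symm h.1), ren_ren (Ne.symm h.2)]
  | .add u v w, h, _ => by
      simp only [Free, not_or] at h
      simp only [subst, ren_ren (Ne.symm h.1), ren_ren (Ne.symm h.2.1), ren_ren (Ne.symm h.2.2)]
  | .mul u v w, h, _ => by
      simp only [Free, not_or] at h
      simp only [subst, ren_ren (Ne.symm h.1), ren_ren (Ne.symm h.2.1), ren_ren (Ne.symm h.2.2)]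
  | .op i a b c' d, h, _ => by
      simp only [Free, not_or] at h
      simp only [subst, ren_ren (Ne.symm h.1), ren_ren (Ne.symm h.2.1), ren_ren (Ne.symm h.2.2.1),
        ren_ren (Ne.symm h.2.2.2)]
  | .imp φ ψ, h, hb => by
      simp only [Free, not_or] at h
      simp only [Bd, not_or] at hb
      simp only [subst, subst_subst h.1 hb.1, subst_subst h.2 hb.2]
  | .all u φ, h, hb => by
      simp only [Bd, not_or] at hb
      have hf : ¬ φ.Free c := fun h' => h ⟨hb.1, h'⟩
      simp only [subst]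
      split_ifs with hu
      · simp only [subst, if_neg (Ne.symm hb.1)]
        rw [subst_of_not_free hf]
      · simp only [subst, if_neg (Ne.symm hb.1)]
        rw [subst_subst hf hb.2]

theorem freeFor_subst {x c : ℕ} : ∀ {φ : Fm κ}, ¬ φ.Free c → ¬ φ.Bd c →
    (φ.subst x c).FreeFor x c
  | .bot, _, _ => trivial
  | .eq u v, _, _ => trivial
  | .zero u, _, _ => trivial
  | .succ u v, _, _ => trivial
  | .add u v w, _, _ => trivial
  | .mul u v w, _, _ => trivial
  | .op i a b c' d, _, _ => trivial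
  | .imp φ ψ, h, hb => by
      simp only [Free, not_or] at h
      simp only [Bd, not_or] at hb
      exact ⟨freeFor_subst h.1 hb.1, freeFor_subst h.2 hb.2⟩
  | .all u φ, h, hb => by
      simp only [Bd, not_or] at hb
      have hf : ¬ φ.Free c := fun h' => h ⟨hb.1, h'⟩
      simp only [subst]
      split_ifs with hu
      · exact Or.inr (Or.inl hf)
      · exact Or.inr (Or.inr ⟨hu, freeFor_subst hf hb.2⟩)

theorem ren_ne_self {x c u : ℕ} (h : c ≠ x) : x ≠ Form.ren x c u := by
  unfold Form.ren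
  split_ifs with h1
  · exact Ne.symm h
  · exact fun e => h1 e.symm

theorem not_free_subst {x c : ℕ} (hc : c ≠ x) : ∀ {φ : Fm κ}, ¬ (φ.subst x c).Free x
  | .bot => fun h => h
  | .eq u v => by
      simp only [subst, Free, not_or]
      exact ⟨ren_ne_self hc, ren_ne_self hc⟩
  | .zero u => by
      simp only [subst, Free]
      exact ren_ne_self hc
  | .succ u v => by
      simp only [subst, Free, not_or]
      exact ⟨ren_ne_self hc, ren_ne_self hc⟩
  | .add u v w => by
      simp only [subst, Free, not_or]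
      exact ⟨ren_ne_self hc, ren_ne_self hc, ren_ne_self hc⟩
  | .mul u v w => by
      simp only [subst, Free, not_or]
      exact ⟨ren_ne_self hc, ren_ne_self hc, ren_ne_self hc⟩
  | .op i a b c' d => by
      simp only [subst, Free, not_or]
      exact ⟨ren_ne_self hc, ren_ne_self hc, ren_ne_self hc, ren_ne_self hc⟩
  | .imp φ ψ => by
      simp only [subst, Free, not_or]
      exact ⟨not_free_subst hc, not_free_subst hc⟩
  | .all u φ => by
      simp only [subst]
      split_ifs with hu
      · intro h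
        exact h.1 hu.symm
      · intro h
        exact not_free_subst hc h.2

/-- simultaneous substitution -/
def psub : (ℕ → ℕ) → Fm κ → Fm κ
  | _, .bot => .bot
  | t, .eq u v => .eq (t u) (t v)
  | t, .zero u => .zero (t u)
  | t, .succ u v => .succ (t u) (t v)
  | t, .add u v w => .add (t u) (t v) (t w)
  | t, .mul u v w => .mul (t u) (t v) (t w)
  | t, .op i a b c d => .op i (t a) (t b) (t c) (t d)
  | t, .imp φ ψ => .imp (psub t φ) (psub t ψ)
  | t, .all x φ => .all x (psub (upd t x x) φ)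

theorem psub_of_fix : ∀ {φ : Fm κ} {t : ℕ → ℕ}, (∀ y, φ.Free y → t y = y) → psub t φ = φ
  | .bot, _, _ => rfl
  | .eq u v, t, h => by simp [psub, h u (Or.inl rfl), h v (Or.inr rfl)]
  | .zero u, t, h => by simp [psub, h u rfl]
  | .succ u v, t, h => by simp [psub, h u (Or.inl rfl), h v (Or.inr rfl)]
  | .add u v w, t, h => by
      simp [psub, h u (Or.inl rfl), h v (Or.inr (Or.inl rfl)), h w (Or.inr (Or.inr rfl))]
  | .mul u v w, t, h => by
      simp [psub, h u (Or.inl rfl), h v (Or.inr (Or.inl rfl)), h w (Or.inr (Or.inr rfl))]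
  | .op i a b c d, t, h => by
      simp [psub, h a (Or.inl rfl), h b (Or.inr (Or.inl rfl)), h c (Or.inr (Or.inr (Or.inl rfl))),
        h d (Or.inr (Or.inr (Or.inr rfl)))]
  | .imp φ ψ, t, h => by
      simp only [psub]
      rw [psub_of_fix (φ := φ) fun y hy => h y (Or.inl hy),
        psub_of_fix (φ := ψ) fun y hy => h y (Or.inr hy)]
  | .all x φ, t, h => by
      simp only [psub]
      rw [psub_of_fix (φ := φ)]
      intro y hy
      by_cases hyx : y = x
      · subst hyx
        simp
      · rw [upd_ne _ _ hyx]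
        exact h y ⟨hyx, hy⟩

theorem psub_subst {x c : ℕ} : ∀ {φ : Fm κ} {t : ℕ → ℕ}, t x = x → (∀ y, y ≠ x → t y ≠ x) →
    (psub t φ).subst x c = psub (upd t x c) φ := by
  have key : ∀ {t : ℕ → ℕ}, t x = x → (∀ y, y ≠ x → t y ≠ x) → ∀ u,
      Form.ren x c (t u) = upd t x c u := by
    intro t h1 h2 u
    by_cases hu : u = x
    · subst hu
      simp [Form.ren, h1]
    · rw [upd_ne _ _ hu, ren_ne (h2 u hu)]
  intro φ
  induction φ with
  | bot => intros; rfl
  | eq u v => intro t h1 h2; simp only [psub, subst, key h1 h2]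
  | zero u => intro t h1 h2; simp only [psub, subst, key h1 h2]
  | succ u v => intro t h1 h2; simp only [psub, subst, key h1 h2]
  | add u v w => intro t h1 h2; simp only [psub, subst, key h1 h2]
  | mul u v w => intro t h1 h2; simp only [psub, subst, key h1 h2]
  | op i a b c' d => intro t h1 h2; simp only [psub, subst, key h1 h2]
  | imp φ ψ ih1 ih2 => intro t h1 h2; simp only [psub, subst, ih1 h1 h2, ih2 h1 h2]
  | all z φ ih =>
    intro t h1 h2
    simp only [psub, subst]
    split_ifs with hz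
    · subst hz
      rw [upd_upd]
    · rw [ih, upd_comm _ _ _ hz]
      · rw [upd_ne _ _ (Ne.symm hz), h1]
      · intro y hy
        by_cases hyz : y = z
        · subst hyz
          rw [upd_same]
          exact hy
        · rw [upd_ne _ _ hyz]
          exact h2 y hy

theorem bd_psub {x : ℕ} : ∀ {φ : Fm κ} {t : ℕ → ℕ}, (psub t φ).Bd x → φ.Bd x
  | .bot, _, h => h
  | .eq u v, _, h => h
  | .zero u, _, h => h
  | .succ u v, _, h => h
  | .add u v w, _, h => h
  | .mul u v w, _, h => h
  | .op i a b c d, _, h => h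
  | .imp φ ψ, t, h => by
      rcases h with h | h
      · exact Or.inl (bd_psub h)
      · exact Or.inr (bd_psub h)
  | .all z φ, t, h => by
      rcases h with h | h
      · exact Or.inl h
      · exact Or.inr (bd_psub h)

theorem freeFor_of_bd {y x : ℕ} : ∀ {φ : Fm κ}, ¬ φ.Bd y → φ.FreeFor y x
  | .bot, _ => trivial
  | .eq u v, _ => trivial
  | .zero u, _ => trivial
  | .succ u v, _ => trivial
  | .add u v w, _ => trivial
  | .mul u v w, _ => trivial
  | .op i a b c d, _ => trivial
  | .imp φ ψ, h => by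
      simp only [Bd, not_or] at h
      exact ⟨freeFor_of_bd h.1, freeFor_of_bd h.2⟩
  | .all z φ, h => by
      simp only [Bd, not_or] at h
      exact Or.inr (Or.inr ⟨Ne.symm h.1, freeFor_of_bd h.2⟩)

/-! ### Derivations from a list of hypotheses -/

section der

variable {T : Fm κ → Prop}

/-- derivations from theorems of `T` and the hypotheses in the list -/
inductive Der (T : Fm κ → Prop) (l : List (Fm κ)) : Fm κ → Prop
  | thm {φ : Fm κ} : Pv T φ → Der T l φ
  | hyp {φ : Fm κ} : φ ∈ l → Der T l φ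
  | mp {φ ψ : Fm κ} : Der T l (φ.imp ψ) → Der T l φ → Der T l ψ

theorem pv_id (φ : Fm κ) : Pv T (φ.imp φ) :=
  .mp (.mp (.log (.s φ (φ.imp φ) φ)) (.log (.k φ (φ.imp φ)))) (.log (.k φ φ))

theorem Der.log {l : List (Fm κ)} {φ : Fm κ} (h : LogK φ) : Der T l φ := .thm (.log h)

theorem Der.weaken {l l' : List (Fm κ)} (hl : l ⊆ l') {φ : Fm κ} (h : Der T l φ) :
    Der T l' φ := by
  induction h with
  | thm h => exact .thm h
  | hyp h => exact .hyp (hl h)
  | mp _ _ ih1 ih2 => exact .mp ih1 ih2

theorem Der.deduct {l : List (Fm κ)} {a φ : Fm κ} (h : Der T (a :: l) φ) :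
    Der T l (a.imp φ) := by
  induction h with
  | thm h => exact .mp (.log (.k _ _)) (.thm h)
  | hyp h =>
    rcases List.mem_cons.1 h with rfl | h
    · exact .thm (pv_id _)
    · exact .mp (.log (.k _ _)) (.hyp h)
  | mp _ _ ih1 ih2 => exact .mp (.mp (.log (.s _ _ _)) ih1) ih2

theorem Der.undeduct {l : List (Fm κ)} {a φ : Fm κ} (h : Der T l (a.imp φ)) :
    Der T (a :: l) φ :=
  .mp (h.weaken (List.subset_cons_self _ _)) (.hyp (List.mem_cons_self))

theorem Der.to_pv {φ : Fm κ} (h : Der T [] φ) : Pv T φ := by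
  induction h with
  | thm h => exact h
  | hyp h => exact absurd h List.not_mem_nil
  | mp _ _ ih1 ih2 => exact .mp ih1 ih2

theorem Der.gen {c : ℕ} : ∀ {l : List (Fm κ)}, (∀ χ ∈ l, ¬ χ.Free c) → ∀ {φ : Fm κ},
    Der T l φ → Der T l (.all c φ)
  | [], _, _, h => .thm (.gen c h.to_pv)
  | a :: l, hl, φ, h => by
      have h1 : Der T l (.all c (a.imp φ)) :=
        Der.gen (fun χ hχ => hl χ (List.mem_cons_of_mem _ hχ)) h.deduct
      exact Der.undeduct (.mp (.log (.dist c a φ (hl a (List.mem_cons_self)))) h1)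

theorem Der.efq {l : List (Fm κ)} (φ : Fm κ) (h : Der T l .bot) : Der T l φ := by
  have h1 : Der T l (φ.neg.imp .bot) := .mp (.log (.k _ _)) h
  exact .mp (.log (.dn φ)) h1

theorem pv_rename {x c : ℕ} {φ : Fm κ} (hcx : c ≠ x) (hf : ¬ φ.Free c) (hb : ¬ φ.Bd c) :
    Pv T ((Fm.all c (φ.subst x c)).imp (.all x φ)) := by
  have h1 : Pv T ((Fm.all c (φ.subst x c)).imp φ) := by
    have := LogK.inst c x (φ.subst x c) (freeFor_subst hf hb)
    rw [subst_subst hf hb] at this
    exact .log this
  refine .mp (.log (.dist x _ _ ?_)) (.gen x h1)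
  intro h
  exact not_free_subst hcx h.2

end der

/-! ### The maximal consistent set -/

/-- bound for the variables of a list -/
def vbl (l : List (Fm κ)) : ℕ := (l.map vb).sum

theorem le_vbl {l : List (Fm κ)} {φ : Fm κ} (h : φ ∈ l) : vb φ ≤ vbl l :=
  List.single_le_sum (fun _ _ => Nat.zero_le _) _ (List.mem_map_of_mem h)

/-- witness formula -/
def wit (c : ℕ) : Fm κ → Fm κ
  | .all x ψ => (ψ.subst x c).neg
  | φ => φ.neg

section construction

variable (T : Fm κ → Prop) (N : ℕ)

/-- fresh variable -/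
def fresh (l : List (Fm κ)) (e : Fm κ) : ℕ := N + vbl l + vb e

open Classical in
/-- the next stage -/
noncomputable def next (l : List (Fm κ)) (e : Fm κ) : List (Fm κ) :=
  if Der T (e :: l) .bot then wit (fresh N l e) e :: e.neg :: l else e :: l

variable {T N}

theorem next_sub (l : List (Fm κ)) (e : Fm κ) : l ⊆ next T N l e := by
  unfold next
  split_ifs
  · exact fun x hx => List.mem_cons_of_mem _ (List.mem_cons_of_mem _ hx)
  · exact fun x hx => List.mem_cons_of_mem _ hx

theorem next_cons {l : List (Fm κ)} (hl : ¬ Der T l .bot) (e : Fm κ) :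
    ¬ Der T (next T N l e) .bot := by
  unfold next
  split_ifs with h
  swap
  · exact h
  have hne : Der T l e.neg := h.deduct
  intro hb
  have main : Der T (e.neg :: l) .bot := by
    cases e with
    | all x ψ =>
      simp only [wit] at hb
      set c := fresh N l (Fm.all x ψ) with hc
      have hcl : ∀ χ ∈ l, ¬ χ.Free c := by
        intro χ hχ hfr
        have h1 := lt_vb_of_free hfr
        have h2 := le_vbl hχ
        unfold fresh at hc
        omega
      have hcψf : ¬ ψ.Free c := by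
        intro hfr
        have h1 := lt_vb_of_free hfr
        unfold fresh at hc
        simp only [vb] at hc
        omega
      have hcψb : ¬ ψ.Bd c := by
        intro hfr
        have h1 := lt_vb_of_bd hfr
        unfold fresh at hc
        simp only [vb] at hc
        omega
      have hcx : c ≠ x := by
        unfold fresh at hc
        simp only [vb] at hc
        omega
      have h1 : Der T ((Fm.all x ψ).neg :: l) (ψ.subst x c) :=
        .mp (.log (.dn _)) hb.deduct
      have h2 : Der T ((Fm.all x ψ).neg :: l) (.all c (ψ.subst x c)) := by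
        refine Der.gen ?_ h1
        intro χ hχ
        rcases List.mem_cons.1 hχ with rfl | hχ
        · intro hfr
          rcases hfr with hfr | hfr
          · exact hcψf hfr.2
          · exact hfr
        · exact hcl χ hχ
      have h3 : Der T ((Fm.all x ψ).neg :: l) (.all x ψ) :=
        .mp (.thm (pv_rename hcx hcψf hcψb)) h2
      exact .mp (.hyp (List.mem_cons_self)) h3
    | bot => exact .mp hb.deduct (.hyp (List.mem_cons_self))
    | eq u v => exact .mp hb.deduct (.hyp (List.mem_cons_self))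
    | zero u => exact .mp hb.deduct (.hyp (List.mem_cons_self))
    | succ u v => exact .mp hb.deduct (.hyp (List.mem_cons_self))
    | add u v w => exact .mp hb.deduct (.hyp (List.mem_cons_self))
    | mul u v w => exact .mp hb.deduct (.hyp (List.mem_cons_self))
    | op i a b c d => exact .mp hb.deduct (.hyp (List.mem_cons_self))
    | imp φ ψ => exact .mp hb.deduct (.hyp (List.mem_cons_self))
  exact hl (.mp main.deduct hne)

variable (T N)

/-- the sequence of stages -/
noncomputable def stage (e : ℕ → Fm κ) (l₀ : List (Fm κ)) : ℕ → List (Fm κ)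
  | 0 => l₀
  | n + 1 => next T N (stage e l₀ n) (e n)

variable {T N}

theorem stage_mono (e : ℕ → Fm κ) (l₀ : List (Fm κ)) {m n : ℕ} (h : m ≤ n) :
    stage T N e l₀ m ⊆ stage T N e l₀ n := by
  induction h with
  | refl => exact List.Subset.refl _
  | step _ ih => exact List.Subset.trans ih (next_sub _ _)

theorem stage_cons (e : ℕ → Fm κ) (l₀ : List (Fm κ)) (h : ¬ Der T l₀ .bot) (n : ℕ) :
    ¬ Der T (stage T N e l₀ n) .bot := by
  induction n with
  | zero => exact h
  | succ n ih => exact next_cons ih _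

variable (T N)

/-- the limit -/
def Lim (e : ℕ → Fm κ) (l₀ : List (Fm κ)) (φ : Fm κ) : Prop := ∃ n, φ ∈ stage T N e l₀ n

end construction

/-- the properties of the maximal consistent set that are used -/
structure Good (T : Fm κ → Prop) (N : ℕ) (Δ : Fm κ → Prop) : Prop where
  thm : ∀ φ, Pv T φ → Δ φ
  mp : ∀ φ ψ, Δ (φ.imp ψ) → Δ φ → Δ ψ
  bot : ¬ Δ .bot
  neg : ∀ φ, Δ φ ∨ Δ φ.neg
  wit : ∀ x ψ, ¬ Δ (.all x ψ) → ∃ c, N ≤ c ∧ Δ (ψ.subst x c).neg

theorem good_lim {T : Fm κ → Prop} {N : ℕ} (e : ℕ → Fm κ) (he : Function.Surjective e)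
    (l₀ : List (Fm κ)) (h : ¬ Der T l₀ .bot) : Good T N (Lim T N e l₀) := by
  have hneg : ∀ φ, Lim T N e l₀ φ ∨ Lim T N e l₀ φ.neg := by
    intro φ
    obtain ⟨n, rfl⟩ := he φ
    by_cases hd : Der T (e n :: stage T N e l₀ n) .bot
    · right
      refine ⟨n + 1, ?_⟩
      simp only [stage, next, if_pos hd]
      exact List.mem_cons_of_mem _ (List.mem_cons_self)
    · left
      refine ⟨n + 1, ?_⟩
      simp only [stage, next, if_neg hd]
      exact List.mem_cons_self
  have hder : ∀ n φ, Der T (stage T N e l₀ n) φ → Lim T N e l₀ φ := by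
    intro n φ hd
    rcases hneg φ with h1 | h1
    · exact h1
    · obtain ⟨m, hm⟩ := h1
      exfalso
      refine stage_cons (N := N) e l₀ h (max n m) ?_
      exact .mp (.hyp (stage_mono e l₀ (le_max_right n m) hm))
        (hd.weaken (stage_mono e l₀ (le_max_left n m)))
  refine ⟨fun φ hφ => hder 0 φ (.thm hφ), ?_, ?_, hneg, ?_⟩
  · rintro φ ψ ⟨n, hn⟩ ⟨m, hm⟩
    exact hder (max n m) ψ (.mp (.hyp (stage_mono e l₀ (le_max_left n m) hn))
      (.hyp (stage_mono e l₀ (le_max_right n m) hm)))
  · rintro ⟨n, hn⟩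
    exact stage_cons (N := N) e l₀ h n (.hyp hn)
  · intro x ψ hx
    obtain ⟨n, hn⟩ := he (.all x ψ)
    by_cases hd : Der T (e n :: stage T N e l₀ n) .bot
    · refine ⟨fresh N (stage T N e l₀ n) (e n), ?_, n + 1, ?_⟩
      · unfold fresh
        omega
      · simp only [stage, next, if_pos hd]
        rw [hn]
        exact List.mem_cons_self
    · exfalso
      apply hx
      refine ⟨n + 1, ?_⟩
      simp only [stage, next, if_neg hd]
      rw [← hn]
      exact List.mem_cons_self

/-! ### The term model -/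

section model

variable {T : Fm κ → Prop} {N : ℕ} {Δ : Fm κ → Prop} (g : Good T N Δ)

include g

theorem Good.log {φ : Fm κ} (h : LogK φ) : Δ φ := g.thm φ (.log h)

theorem Good.imp_iff (φ ψ : Fm κ) : Δ (φ.imp ψ) ↔ (Δ φ → Δ ψ) := by
  constructor
  · exact g.mp φ ψ
  · intro h
    by_cases hφ : Δ φ
    · exact g.mp _ _ (g.log (.k ψ φ)) (h hφ)
    · have hn : Δ φ.neg := (g.neg φ).resolve_left hφ
      have h1 : Pv T (φ.neg.imp (φ.imp ψ)) := by
        have h2 : Der T [φ, φ.neg] .bot :=
          .mp (.hyp (List.mem_cons_of_mem _ List.mem_cons_self)) (.hyp List.mem_cons_self)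
        exact (h2.efq ψ).deduct.deduct.to_pv
      exact g.mp _ _ (g.thm _ h1) hn

theorem Good.repl {x y : ℕ} {φ ψ : Fm κ} (hr : ReplK x y φ ψ) (he : Δ (.eq x y)) (h : Δ φ) :
    Δ ψ :=
  g.mp _ _ (g.mp _ _ (g.log (.repl x y φ ψ hr)) he) h

theorem Good.eq_symm {x y : ℕ} (h : Δ (.eq x y)) : Δ (.eq y x) :=
  g.repl (.eq (Or.inr ⟨rfl, rfl⟩) (Or.inl rfl)) h (g.log (.refl x))

theorem Good.eq_trans {x y z : ℕ} (h1 : Δ (.eq x y)) (h2 : Δ (.eq y z)) : Δ (.eq x z) :=
  g.repl (.eq (Or.inl rfl) (Or.inr ⟨rfl, rfl⟩)) h2 h1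

end model

/-- the equality of parameters -/
def sd {T : Fm κ → Prop} {N : ℕ} {Δ : Fm κ → Prop} (g : Good T N Δ) : Setoid ℕ where
  r a b := Δ (.eq (N + a) (N + b))
  iseqv := ⟨fun _ => g.log (.refl _), fun h => g.eq_symm h, fun h1 h2 => g.eq_trans h1 h2⟩

/-- the term model -/
def tmod {T : Fm κ → Prop} {N : ℕ} {Δ : Fm κ → Prop} (g : Good T N Δ) : Str κ where
  M := Quotient (sd g)
  ne := ⟨Quotient.mk (sd g) 0⟩
  zero p := ∃ a, Quotient.mk (sd g) a = p ∧ Δ (.zero (N + a))
  succ p q := ∃ a b, Quotient.mk (sd g) a = p ∧ Quotient.mk (sd g) b = q ∧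
    Δ (.succ (N + a) (N + b))
  add p q r := ∃ a b c, Quotient.mk (sd g) a = p ∧ Quotient.mk (sd g) b = q ∧
    Quotient.mk (sd g) c = r ∧ Δ (.add (N + a) (N + b) (N + c))
  mul p q r := ∃ a b c, Quotient.mk (sd g) a = p ∧ Quotient.mk (sd g) b = q ∧
    Quotient.mk (sd g) c = r ∧ Δ (.mul (N + a) (N + b) (N + c))
  op i p q r s := ∃ a b c d, Quotient.mk (sd g) a = p ∧ Quotient.mk (sd g) b = q ∧
    Quotient.mk (sd g) c = r ∧ Quotient.mk (sd g) d = s ∧
    Δ (.op i (N + a) (N + b) (N + c) (N + d))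

section truth

variable {T : Fm κ → Prop} {N : ℕ} {Δ : Fm κ → Prop} (g : Good T N Δ)

/-- the class of a parameter -/
def cls (a : ℕ) : (tmod g).M := Quotient.mk (sd g) a

theorem mk_eq {a b : ℕ} : Quotient.mk (sd g) a = Quotient.mk (sd g) b ↔
    Δ (.eq (N + a) (N + b)) := by
  rw [Quotient.eq]
  exact Iff.rfl

theorem truth : ∀ (ψ : Fm κ), (∀ x, ψ.Bd x → x < N) → ∀ s : ℕ → ℕ,
    Sat (tmod g) ψ (fun x => cls g (s x)) ↔ Δ (psub (fun x => N + s x) ψ) := by
  intro ψ
  induction ψ with
  | bot =>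
    intro _ s
    exact ⟨fun h => h.elim, fun h => g.bot h⟩
  | eq u v =>
    intro _ s
    exact mk_eq g
  | zero u =>
    intro _ s
    constructor
    · rintro ⟨a, ha, h⟩
      exact g.repl (.zero (Or.inr ⟨rfl, rfl⟩)) ((mk_eq g).1 ha) h
    · intro h
      exact ⟨s u, rfl, h⟩
  | succ u v =>
    intro _ s
    constructor
    · rintro ⟨a, b, ha, hb, h⟩
      have h1 := g.repl (.succ (Or.inr ⟨rfl, rfl⟩) (Or.inl rfl)) ((mk_eq g).1 ha) h
      exact g.repl (.succ (Or.inl rfl) (Or.inr ⟨rfl, rfl⟩)) ((mk_eq g).1 hb) h1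
    · intro h
      exact ⟨s u, s v, rfl, rfl, h⟩
  | add u v w =>
    intro _ s
    constructor
    · rintro ⟨a, b, c, ha, hb, hc, h⟩
      have h1 := g.repl (.add (Or.inr ⟨rfl, rfl⟩) (Or.inl rfl) (Or.inl rfl)) ((mk_eq g).1 ha) h
      have h2 := g.repl (.add (Or.inl rfl) (Or.inr ⟨rfl, rfl⟩) (Or.inl rfl)) ((mk_eq g).1 hb) h1
      exact g.repl (.add (Or.inl rfl) (Or.inl rfl) (Or.inr ⟨rfl, rfl⟩)) ((mk_eq g).1 hc) h2
    · intro h
      exact ⟨s u, s v, s w, rfl, rfl, rfl, h⟩
  | mul u v w =>
    intro _ s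
    constructor
    · rintro ⟨a, b, c, ha, hb, hc, h⟩
      have h1 := g.repl (.mul (Or.inr ⟨rfl, rfl⟩) (Or.inl rfl) (Or.inl rfl)) ((mk_eq g).1 ha) h
      have h2 := g.repl (.mul (Or.inl rfl) (Or.inr ⟨rfl, rfl⟩) (Or.inl rfl)) ((mk_eq g).1 hb) h1
      exact g.repl (.mul (Or.inl rfl) (Or.inl rfl) (Or.inr ⟨rfl, rfl⟩)) ((mk_eq g).1 hc) h2
    · intro h
      exact ⟨s u, s v, s w, rfl, rfl, rfl, h⟩
  | op i a' b' c' d' =>
    intro _ s
    constructor
    · rintro ⟨a, b, c, d, ha, hb, hc, hd, h⟩
      have h1 := g.repl (.op (Or.inr ⟨rfl, rfl⟩) (Or.inl rfl) (Or.inl rfl) (Or.inl rfl))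
        ((mk_eq g).1 ha) h
      have h2 := g.repl (.op (Or.inl rfl) (Or.inr ⟨rfl, rfl⟩) (Or.inl rfl) (Or.inl rfl))
        ((mk_eq g).1 hb) h1
      have h3 := g.repl (.op (Or.inl rfl) (Or.inl rfl) (Or.inr ⟨rfl, rfl⟩) (Or.inl rfl))
        ((mk_eq g).1 hc) h2
      exact g.repl (.op (Or.inl rfl) (Or.inl rfl) (Or.inl rfl) (Or.inr ⟨rfl, rfl⟩))
        ((mk_eq g).1 hd) h3
    · intro h
      exact ⟨s a', s b', s c', s d', rfl, rfl, rfl, rfl, h⟩
  | imp φ ψ ih1 ih2 =>
    intro hb s
    rw [sat_imp, ih1 (fun x hx => hb x (Or.inl hx)) s, ih2 (fun x hx => hb x (Or.inr hx)) s]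
    exact (g.imp_iff _ _).symm
  | all x φ ih =>
    intro hb s
    have hbφ : ∀ y, φ.Bd y → y < N := fun y hy => hb y (Or.inr hy)
    have hxN : x < N := hb x (Or.inl rfl)
    set t : ℕ → ℕ := fun y => N + s y with ht
    set θ : Fm κ := psub (upd t x x) φ with hθ
    have hsub : ∀ m, θ.subst x (N + m) = psub (upd t x (N + m)) φ := by
      intro m
      rw [hθ, psub_subst, upd_upd]
      · exact upd_same _ _ _
      · intro y hy
        rw [upd_ne _ _ hy]
        simp only [ht]
        omega
    have hIH : ∀ m, Sat (tmod g) φ (upd (fun y => cls g (s y)) x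
        (cls g m)) ↔ Δ (θ.subst x (N + m)) := by
      intro m
      rw [hsub m]
      have h1 := ih hbφ (upd s x m)
      have h2 : (fun y => cls g (upd s x m y)) =
          upd (fun y => cls g (s y)) x (cls g m) := by
        funext y
        unfold upd
        split_ifs <;> rfl
      have h3 : (fun y => N + upd s x m y) = upd t x (N + m) := by
        funext y
        unfold upd
        split_ifs <;> simp [ht]
      rw [h2, h3] at h1
      exact h1
    have hpsub : psub t (Fm.all x φ) = .all x θ := rfl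
    rw [hpsub, sat_all]
    constructor
    · intro h
      by_contra hn
      obtain ⟨c, hc, hw⟩ := g.wit x θ hn
      obtain ⟨m, rfl⟩ := Nat.exists_eq_add_of_le hc
      have h1 : Δ (θ.subst x (N + m)) := (hIH m).1 (h _)
      exact g.bot (g.mp _ _ hw h1)
    · intro h a
      obtain ⟨m, hm⟩ : ∃ m, cls g m = a := Quotient.exists_rep a
      rw [← hm]
      refine (hIH m).2 ?_
      refine g.mp _ _ (g.log (.inst x (N + m) θ (freeFor_of_bd ?_))) h
      intro hbd
      have := hbφ _ (bd_psub hbd)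
      omega

end truth

end Pool.Agent.TH690.J100

namespace Pool.Agent.TH690.J100

open Pool.Agent.TH672 Pool.Agent.TH672.Fm

/-- The completeness theorem. -/
theorem completeness {κ : Type} [Countable κ] (T : List (Fm κ)) (φ : Fm κ)
    (hT : ∀ ψ ∈ T, ψ.Closed) (hφ : φ.Closed)
    (h : ∀ (S : Str κ) (v : ℕ → S.M), (∀ ψ ∈ T, Sat S ψ v) → Sat S φ v) :
    Pv (fun ψ => ψ ∈ T) φ := by
  by_contra hn
  set N : ℕ := vbl (φ :: T) with hN
  obtain ⟨e, he⟩ := exists_surjective_nat (Fm κ)
  have hcons : ¬ Der (fun ψ => ψ ∈ T) [φ.neg] .bot := by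
    intro hd
    apply hn
    exact Pv.mp (.log (.dn φ)) hd.deduct.to_pv
  have g := good_lim (N := N) e he [φ.neg] hcons
  have hbd : ∀ ψ ∈ φ :: T, ∀ x, ψ.Bd x → x < N := by
    intro ψ hψ x hx
    exact lt_of_lt_of_le (lt_vb_of_bd hx) (le_vbl hψ)
  have hmodel := h (tmod g) (fun _ => cls g 0) (by
    intro ψ hψ
    rw [truth g ψ (hbd ψ (List.mem_cons_of_mem _ hψ)) (fun _ => 0),
      psub_of_fix (fun y hy => absurd hy (hT ψ hψ y))]
    exact g.thm ψ (.ax hψ))
  rw [truth g φ (hbd φ List.mem_cons_self) (fun _ => 0),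
    psub_of_fix (fun y hy => absurd hy (hφ y))] at hmodel
  exact g.bot (g.mp _ _ ⟨0, List.mem_cons_self⟩ hmodel)

end Pool.Agent.TH690.J100
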